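import Pool.Agent.Lib_MP_55d5ef_q.QKey

open Matrix Lib_MP_55d5ef_geo Lib_MP_55d5ef

namespace Lib_MP_55d5ef_q

/-- The class of `k` is a representative modulo `Λ'`. -/
theorem cls_spec (k : Fin 3 → ℤ) : cls k < 40 ∧ InLam (k 0 - repx (cls k)) (k 1)
    (k 2 - repz (cls k)) := by
  have hn : ((cls k : ℕ) : ℤ) = 20 * (k 0 % 2) + (k 2 - 11 * k 1 - 6 * (k 0 - k 0 % 2)) % 20 := by
    unfold cls
    rw [Int.toNat_of_nonneg]
    have h1 := Int.emod_nonneg (k 0) (show (2:ℤ) ≠ 0 by norm_num)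
    have h2 := Int.emod_nonneg (k 2 - 11 * k 1 - 6 * (k 0 - k 0 % 2)) (show (20:ℤ) ≠ 0 by norm_num)
    omega
  have hx : repx (cls k) = k 0 % 2 := by
    unfold repx
    omega
  have hz : repz (cls k) = (k 2 - 11 * k 1 - 6 * (k 0 - k 0 % 2)) % 20 := by
    unfold repz
    omega
  refine ⟨by omega, ?_, ?_⟩
  · rw [hx]; omega
  · rw [hx, hz]; omega

theorem gK_eq (k : Fin 3 → ℤ) : gK k =
    side (cls k) * TG (-(k 0 - repx (cls k))) (-(k 1)) (-(k 2 - repz (cls k))) := by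
  unfold gK side prt rfl3
  rw [TG_inv, mul_assoc (_ * SG _ * JG), TG_mul]
  congr 2 <;> ring

theorem InLam_neg {x y z : ℤ} (h : InLam x y z) : InLam (-x) (-y) (-z) := by
  obtain ⟨h1, h2⟩ := h
  refine ⟨by omega, by omega⟩

theorem gK_mem (k : Fin 3 → ℤ) : gK k ∈ Gam := by
  obtain ⟨h1, h2⟩ := cls_spec k
  rw [gK_eq]
  exact Gam.mul_mem (side_mem _ h1) (TG_mem (InLam_neg h2))

/-- `gK k` maps the neighbour over `k` to the base cusp. -/
theorem gK_nb (k : Fin 3 → ℤ) :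
    (gK k).1 *ᵥ (nb (k 0) (k 1) (k 2) : Fin 5 → ℤ) = e5 := by
  unfold gK
  simp only [Units.val_mul, ← Matrix.mulVec_mulVec, TG_val]
  rw [TM_nb]
  have e : (nb (-k 0 + k 0) (-k 1 + k 1) (-k 2 + k 2) : Fin 5 → ℤ) = nb 0 0 0 := by
    congr 1 <;> ring
  rw [e]
  have e1 : (JG.1 : Matrix (Fin 5) (Fin 5) ℤ) = JM := rfl
  have e2 : ((SG (rfl3 k)).1 : Matrix (Fin 5) (Fin 5) ℤ) = SM (rfl3 k) := rfl
  rw [e1, e2, JM_nb, SM_e5, TM_e5]

theorem act_TG (a b c : ℤ) (x : Fin 5 → ℝ) : act (TG a b c) x =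
    ![x 0 + (2 * a - b - c) * x 1 + (2 * b - a) * x 2 + (4 * c - a) * x 3 + qK (a : ℝ) b c * x 4,
      x 1 + a * x 4, x 2 + b * x 4, x 3 + c * x 4, x 4] := by
  unfold act
  rw [TG_val]
  funext i
  fin_cases i <;>
    simp [TM, qK, Matrix.mulVec, dotProduct, Fin.sum_univ_five]

theorem act_JG (x : Fin 5 → ℝ) : act JG x = ![x 4, x 1, x 2, x 3, x 0] := by
  unfold act
  have e1 : (JG.1 : Matrix (Fin 5) (Fin 5) ℤ) = JM := rfl
  rw [e1]
  funext i
  fin_cases i <;>
    simp [JM, Matrix.mulVec, dotProduct, Fin.sum_univ_five]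

theorem act_SG (A : ℕ) (x : Fin 5 → ℝ) : act (SG A) x =
    ![x 0, SR A ![x 1, x 2, x 3] 0, SR A ![x 1, x 2, x 3] 1, SR A ![x 1, x 2, x 3] 2, x 4] := by
  unfold act
  have e2 : ((SG A).1 : Matrix (Fin 5) (Fin 5) ℤ) = SM A := rfl
  rw [e2]
  unfold SM SR
  by_cases h3 : A = 3
  · rw [if_pos h3, if_pos h3]
    funext i
    fin_cases i <;> simp [Matrix.mulVec, dotProduct, Fin.sum_univ_five]
  · rw [if_neg h3, if_neg h3]
    by_cases h4 : A = 4
    · rw [if_pos h4, if_pos h4]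
      funext i
      fin_cases i <;> simp [Matrix.mulVec, dotProduct, Fin.sum_univ_five]
    · rw [if_neg h4, if_neg h4]
      funext i
      fin_cases i <;> simp [Matrix.mulVec, dotProduct, Fin.sum_univ_five] <;> ring

theorem SR_smul (A : ℕ) (c : ℝ) (z : P3) : SR A (c • z) = c • SR A z := by
  unfold SR
  split_ifs <;>
  · funext i
    fin_cases i <;> simp <;> ring

/-- On the wall of `k` the element `gK k` keeps the height and acts on the location as
`phiK k`. -/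
theorem act_gK {x : Fin 5 → ℝ} (hx : x ∈ HL) {k : Fin 3 → ℤ} (hk : - bf x (nk k) = x 4) :
    (act (gK k) x) 4 = x 4 ∧ loc (act (gK k) x) = phiK k (loc x) := by
  have h4 := hx.2
  -- the translated point is fixed by the inversion
  set y := act (TG (-k 0) (-k 1) (-k 2)) x with hy
  have hy0 : y 0 = x 4 := by
    have hk' := hk
    simp only [bf, nk, nb, qK] at hk'
    simp only [Matrix.cons_val] at hk'
    rw [hy, act_TG]
    simp only [Matrix.cons_val, qK]
    push_cast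
    linarith
  have hy4 : y 4 = x 4 := by
    rw [hy, act_TG]; simp
  have hy1 : y 1 = x 1 - k 0 * x 4 := by
    rw [hy, act_TG]; simp; ring
  have hy2 : y 2 = x 2 - k 1 * x 4 := by
    rw [hy, act_TG]; simp; ring
  have hy3 : y 3 = x 3 - k 2 * x 4 := by
    rw [hy, act_TG]; simp; ring
  have hJ : act JG y = y := by
    rw [act_JG]
    funext i
    fin_cases i
    · simp [hy0, hy4]
    · simp
    · simp
    · simp
    · simp [hy0, hy4]
  have hg : act (gK k) x = act (TG (repx (prt k)) 0 (repz (prt k))) (act (SG (rfl3 k)) y) := by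
    unfold gK
    rw [act_mul, act_mul, act_mul, ← hy, hJ]
  have hv : (![y 1, y 2, y 3] : P3) = (x 4) • (loc x - kz k) := by
    have e0 : kz k 0 = k 0 := rfl
    have e1 : kz k 1 = k 1 := rfl
    have e2 : kz k 2 = k 2 := rfl
    funext i
    fin_cases i
    · show y 1 = x 4 * (x 1 / x 4 - kz k 0)
      rw [hy1, e0]; field_simp
    · show y 2 = x 4 * (x 2 / x 4 - kz k 1)
      rw [hy2, e1]; field_simp
    · show y 3 = x 4 * (x 3 / x 4 - kz k 2)
      rw [hy3, e2]; field_simp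
  rw [hg, act_TG, act_SG, hv, SR_smul]
  simp only [Matrix.cons_val]
  refine ⟨hy4, ?_⟩
  funext i
  unfold loc phiK
  rw [hy4]
  fin_cases i
  · simp
    field_simp
  · simp
    field_simp
  · simp
    field_simp

end Lib_MP_55d5ef_q
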