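import Pool.Agent.Lib_MP_55d5ef_q.QKuhn

open Matrix Lib_MP_55d5ef_geo Lib_MP_55d5ef

namespace Lib_MP_55d5ef_q

private theorem quarter (d : ℝ) : d * (1 - d) ≤ 1 / 4 := by nlinarith [sq_nonneg (d - 1 / 2)]

private theorem conv_bound (N : ℕ) (hN : 1 ≤ N) (x : Fin 3 → ℤ)
    (hx : (N : ℤ) ∣ qK (x 0) (x 1) (x 2)) :
    |Int.fract ((x 0 : ℝ) / N) - Int.fract ((x 1 : ℝ) / N)|
        * (1 - |Int.fract ((x 0 : ℝ) / N) - Int.fract ((x 1 : ℝ) / N)|)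
      + |Int.fract ((x 0 : ℝ) / N) - Int.fract ((x 2 : ℝ) / N)|
        * (1 - |Int.fract ((x 0 : ℝ) / N) - Int.fract ((x 2 : ℝ) / N)|)
      + Int.fract ((x 1 : ℝ) / N) * (1 - Int.fract ((x 1 : ℝ) / N))
      + 3 * (Int.fract ((x 2 : ℝ) / N) * (1 - Int.fract ((x 2 : ℝ) / N))) ≤ 2 - 2 / (N : ℝ) := by
  rcases Nat.lt_or_ge N 4 with h4 | h4
  · have e0 : Int.fract ((x 0 : ℝ) / N) = ((x 0 % (N : ℤ) : ℤ) : ℝ) / N :=
      Int.fract_div_intCast_eq_div_intCast_mod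
    have e1 : Int.fract ((x 1 : ℝ) / N) = ((x 1 % (N : ℤ) : ℤ) : ℝ) / N :=
      Int.fract_div_intCast_eq_div_intCast_mod
    have e2 : Int.fract ((x 2 : ℝ) / N) = ((x 2 % (N : ℤ) : ℤ) : ℝ) / N :=
      Int.fract_div_intCast_eq_div_intCast_mod
    rw [e0, e1, e2]
    obtain rfl | rfl | rfl : N = 1 ∨ N = 2 ∨ N = 3 := by omega
    · have a0 : x 0 % ((1 : ℕ) : ℤ) = 0 := by omega
      have a1 : x 1 % ((1 : ℕ) : ℤ) = 0 := by omega
      have a2 : x 2 % ((1 : ℕ) : ℤ) = 0 := by omega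
      rw [a0, a1, a2]
      norm_num
    · have a0 : x 0 % ((2 : ℕ) : ℤ) = 0 ∨ x 0 % ((2 : ℕ) : ℤ) = 1 := by omega
      have a1 : x 1 % ((2 : ℕ) : ℤ) = 0 ∨ x 1 % ((2 : ℕ) : ℤ) = 1 := by omega
      have a2 : x 2 % ((2 : ℕ) : ℤ) = 0 ∨ x 2 % ((2 : ℕ) : ℤ) = 1 := by omega
      rcases a0 with a0 | a0 <;> rcases a1 with a1 | a1 <;> rcases a2 with a2 | a2
      case inl.inr.inr =>
        exfalso
        obtain ⟨a, ha⟩ : ∃ a, x 0 = 2 * a := ⟨x 0 / 2, by push_cast at a0; omega⟩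
        obtain ⟨b, hb⟩ : ∃ b, x 1 = 2 * b + 1 := ⟨x 1 / 2, by push_cast at a1; omega⟩
        obtain ⟨c, hc⟩ : ∃ c, x 2 = 2 * c + 1 := ⟨x 2 / 2, by push_cast at a2; omega⟩
        obtain ⟨t, ht⟩ := hx
        rw [ha, hb, hc] at ht
        have h1 : qK (2 * a) (2 * b + 1) (2 * c + 1)
            = 2 * (2 * a ^ 2 + 2 * b ^ 2 + 2 * b + (2 * c + 1) ^ 2 - a * (2 * b + 1)
              - a * (2 * c + 1)) + 1 := by
          simp only [qK]; ring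
        rw [h1] at ht
        push_cast at ht
        omega
      all_goals
        rw [a0, a1, a2]
        norm_num [abs_of_nonneg]
    · have a0 : x 0 % ((3 : ℕ) : ℤ) = 0 ∨ x 0 % ((3 : ℕ) : ℤ) = 1 ∨ x 0 % ((3 : ℕ) : ℤ) = 2 := by
        omega
      have a1 : x 1 % ((3 : ℕ) : ℤ) = 0 ∨ x 1 % ((3 : ℕ) : ℤ) = 1 ∨ x 1 % ((3 : ℕ) : ℤ) = 2 := by
        omega
      have a2 : x 2 % ((3 : ℕ) : ℤ) = 0 ∨ x 2 % ((3 : ℕ) : ℤ) = 1 ∨ x 2 % ((3 : ℕ) : ℤ) = 2 := by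
        omega
      rcases a0 with a0 | a0 | a0 <;> rcases a1 with a1 | a1 | a1 <;>
        rcases a2 with a2 | a2 | a2 <;> rw [a0, a1, a2] <;>
        norm_num [abs_of_nonneg, abs_of_neg]
  · have h1 := quarter |Int.fract ((x 0 : ℝ) / N) - Int.fract ((x 1 : ℝ) / N)|
    have h2 := quarter |Int.fract ((x 0 : ℝ) / N) - Int.fract ((x 2 : ℝ) / N)|
    have h3 := quarter (Int.fract ((x 1 : ℝ) / N))
    have h5 := quarter (Int.fract ((x 2 : ℝ) / N))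
    have h6 : (4 : ℝ) ≤ N := by exact_mod_cast h4
    have h7 : 2 / (N : ℝ) ≤ 1 / 2 := by
      rw [div_le_div_iff₀ (by linarith) (by norm_num)]; linarith
    linarith

/-- **Convex combinations at rational points.**  Let `n ≥ 1` and `κ` integral with
`n ∣ qK κ`.  Then `κ/n` is a convex combination of four lattice points with weighted half norm
at most `1 - 1/n`.

Proof.  Apply `kuhn` to `z = κ/n`.  The right-hand side `V` (twice the weighted sum) has to be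
shown `≤ 2 - 2/n`.  All `d ∈ {|f₀-f₁|, |f₀-f₂|, f₁, f₂}` are multiples of `1/n` in `[0,1)`.
* `n ≥ 4`: `d (1-d) ≤ 1/4`, so `V ≤ 6/4 ≤ 2 - 2/4`.
* `n = 3`: `d ∈ {0,1/3,2/3}`, so `d (1-d) ≤ 2/9`, `V ≤ 6 · 2/9 = 4/3`.
* `n = 2`: `d ∈ {0,1/2}`, `d(1-d) ∈ {0,1/4}`; if `V > 1` then the sum of the weights
  `1,1,1,3` of the edges with `d = 1/2` is `> 4`, so `f₂ = 1/2` and at least two of the other
  three `d` are `1/2`; by parity all four are `1/2`: `f₀ = 0, f₁ = f₂ = 1/2`, that is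
  `κ ≡ (0,1,1) mod 2`, and then `qK κ = x² + y² + 2z² - xy - xz` is odd, contradiction.
* `n = 1`: all fractional parts are `0`.
(In Lean: for `n ≤ 3` the fractional parts are `(κ i % n)/n`: `Int.fract_div_intCast_eq…`, and
then a finite case analysis on the residues.) -/
theorem conv_rat (n : ℤ) (hn : 1 ≤ n) (x : Fin 3 → ℤ) (hx : n ∣ qK (x 0) (x 1) (x 2)) :
    ∃ (w : Fin 4 → ℝ) (k : Fin 4 → Fin 3 → ℤ),
    (∀ i, 0 ≤ w i) ∧ w 0 + w 1 + w 2 + w 3 = 1 ∧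
    (∀ j, w 0 * k 0 j + w 1 * k 1 j + w 2 * k 2 j + w 3 * k 3 j = (x j : ℝ) / n) ∧
    w 0 * qz (kz (k 0) - fun j => (x j : ℝ) / n) + w 1 * qz (kz (k 1) - fun j => (x j : ℝ) / n)
      + w 2 * qz (kz (k 2) - fun j => (x j : ℝ) / n)
      + w 3 * qz (kz (k 3) - fun j => (x j : ℝ) / n) ≤ 1 - 1 / (n : ℝ) := by
  obtain ⟨N, rfl⟩ := Int.eq_ofNat_of_zero_le (show 0 ≤ n by omega)
  have hN : 1 ≤ N := by exact_mod_cast hn
  obtain ⟨w, k, h0, h1, h2, h3⟩ := kuhn (fun j => (x j : ℝ) / ((N : ℤ) : ℝ))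
  refine ⟨w, k, h0, h1, h2, ?_⟩
  have hb := conv_bound N hN x hx
  simp only [Int.cast_natCast] at h3 ⊢
  have h4 : 1 - 1 / (N : ℝ) = (2 - 2 / (N : ℝ)) / 2 := by ring
  rw [h4]
  linarith

end Lib_MP_55d5ef_q
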