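import Pool.Agent.Lib_MP_55d5ef_geo.GNear
import Pool.Agent.Lib_MP_55d5ef.DataA

/-!
# `MP_55d5ef_gt`, the quotient `H⁴/Γ` as `(ℝ³ × [0,∞))/~`: definitions

`P3 = ℝ³` with the norm `2 qz`, lattice `ℤ³`, Voronoi cells `Vor k`, the affine maps `phiK k`
(side pairings), the relation `step` on `P3 × [0,∞)`.
-/

open Matrix Lib_MP_55d5ef_geo Lib_MP_55d5ef

namespace Lib_MP_55d5ef_q

/-- Points of the cusp section. -/
abbrev P3 : Type := Fin 3 → ℝ

/-- Half of the norm. -/
def qz (z : P3) : ℝ := qK (z 0) (z 1) (z 2)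

/-- A lattice vector as a real vector. -/
def kz (k : Fin 3 → ℤ) : P3 := fun i => (k i : ℝ)

/-- The Voronoi cell of the lattice point `k`. -/
def Vor (k : Fin 3 → ℤ) : Set P3 := {z | ∀ l : Fin 3 → ℤ, qz (z - kz k) ≤ qz (z - kz l)}

/-- The class of `k` in `K/Λ'`, a number `< 40`. -/
def cls (k : Fin 3 → ℤ) : ℕ :=
  (20 * (k 0 % 2) + (k 2 - 11 * k 1 - 6 * (k 0 - k 0 % 2)) % 20).toNat

/-- The partner class. -/
def prt (k : Fin 3 → ℤ) : ℕ := (pairs.getD (cls k) (0, 0)).1

/-- The index of the reflection. -/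
def rfl3 (k : Fin 3 → ℤ) : ℕ := (pairs.getD (cls k) (0, 0)).2

/-- The reflections on `ℝ³` (the restriction of `SM A`). -/
def SR (A : ℕ) (z : P3) : P3 :=
  if A = 3 then ![-z 0 + z 1 + z 2, z 1, z 2]
  else if A = 4 then ![-z 1 + z 2, -z 0 + z 2, z 2]
  else ![z 0, z 0 - z 1, z 2]

/-- The side pairing on the cusp section: the affine isometry `z ↦ c + S (z - k)`, which maps
the Voronoi cell of `k` onto the Voronoi cell of `c = rep (partner of the class of k)`. -/
def phiK (k : Fin 3 → ℤ) (z : P3) : P3 :=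
  SR (rfl3 k) (z - kz k) + ![(repx (prt k) : ℝ), 0, (repz (prt k) : ℝ)]

/-- The corresponding element of the group. -/
def gK (k : Fin 3 → ℤ) : GL (Fin 5) ℤ :=
  TG (repx (prt k)) 0 (repz (prt k)) * SG (rfl3 k) * JG * TG (-k 0) (-k 1) (-k 2)

/-- One step of the equivalence relation on `ℝ³ × [0,∞)`: translation by a vector of `Λ'`, or
(on the floor `ℝ³ × 0`) the side pairing of a Voronoi cell. -/
inductive step : P3 × NNReal → P3 × NNReal → Prop
  | trans (z : P3) (s : NNReal) (k : Fin 3 → ℤ) (hk : InLam (k 0) (k 1) (k 2)) :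
      step (z, s) (z + kz k, s)
  | pair (z : P3) (k : Fin 3 → ℤ) (hz : z ∈ Vor k) : step (z, 0) (phiK k z, 0)

/-- The equivalence relation generated by the steps. -/
def stepSetoid : Setoid (P3 × NNReal) := Relation.EqvGen.setoid step

/-- The location of a point of the hyperboloid (horospherical coordinate). -/
noncomputable def loc (x : Fin 5 → ℝ) : P3 := ![x 1 / x 4, x 2 / x 4, x 3 / x 4]

/-- The Ford domain of the base cusp, for the group `Γ`. -/
def Dom (Γ : Subgroup (GL (Fin 5) ℤ)) : Set (Fin 5 → ℝ) :=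
  {x | x ∈ HL ∧ ∀ g ∈ Γ, x 4 ≤ (act g x) 4}

end Lib_MP_55d5ef_q
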