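import Pool.Agent.Lib_MP_55d5ef_q.QKey

open Matrix Lib_MP_55d5ef_geo Lib_MP_55d5ef

namespace Lib_MP_55d5ef_q

/-- Membership in `Dom` is decided by the neighbours. -/
theorem mem_Dom_iff (h : GData Gam) {x : Fin 5 → ℝ} (hx : x ∈ HL) :
    x ∈ Dom Gam ↔ ∀ k, x 4 ≤ - bf x (nk k) := by
  constructor
  · rintro ⟨_, h2⟩ k
    obtain ⟨g, hg, hge⟩ := h.adj (k 0) (k 1) (k 2)
    have h3 := h2 _ (Gam.inv_mem hg)
    rwa [act_four (h.isom _ (Gam.inv_mem hg)), inv_inv, hge, ← nk_toR] at h3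
  · intro hN
    refine ⟨hx, fun g hg => ?_⟩
    rw [act_four (h.isom g hg)]
    have hgi := Gam.inv_mem hg
    obtain ⟨h3, h4⟩ := light_four_nonneg h hgi
    rcases eq_or_lt_of_le h3 with h5 | h5
    · rw [h4 h5.symm, e5_toR, bf_e5]
      linarith
    · exact (key hx hN (by rw [h.isom _ hgi, bf_e5_e5]) (by omega)).1

/-- The condition at one neighbour in terms of the location. -/
theorem nk_iff {x : Fin 5 → ℝ} (hx : x ∈ HL) (k : Fin 3 → ℤ) :
    (x 4 ≤ - bf x (nk k) ↔ 2 - 2 * qz (loc x - kz k) ≤ 1 / (x 4) ^ 2) ∧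
    (- bf x (nk k) = x 4 ↔ 2 - 2 * qz (loc x - kz k) = 1 / (x 4) ^ 2) := by
  have h4 := hx.2
  rw [bf_nk hx]
  set q := qz (loc x - kz k)
  have e : x 4 * q + 1 / (2 * x 4) - x 4 = (x 4 / 2) * (1 / (x 4) ^ 2 - (2 - 2 * q)) := by
    field_simp; ring
  have hp : 0 < x 4 / 2 := by positivity
  constructor
  · constructor
    · intro h1
      have : 0 ≤ (x 4 / 2) * (1 / (x 4) ^ 2 - (2 - 2 * q)) := by rw [← e]; linarith
      have := nonneg_of_mul_nonneg_right this hp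
      linarith
    · intro h1
      have : 0 ≤ (x 4 / 2) * (1 / (x 4) ^ 2 - (2 - 2 * q)) := by
        apply mul_nonneg hp.le; linarith
      rw [← e] at this; linarith
  · constructor
    · intro h1
      have : (x 4 / 2) * (1 / (x 4) ^ 2 - (2 - 2 * q)) = 0 := by rw [← e]; linarith
      rcases mul_eq_zero.mp this with h2 | h2 <;> linarith
    · intro h1
      have : (x 4 / 2) * (1 / (x 4) ^ 2 - (2 - 2 * q)) = 0 := by rw [h1]; ring
      rw [← e] at this; linarith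

/-- In terms of the location. -/
theorem mem_Dom_iff' (h : GData Gam) {x : Fin 5 → ℝ} (hx : x ∈ HL) :
    x ∈ Dom Gam ↔ ∀ k, 2 - 2 * qz (loc x - kz k) ≤ 1 / (x 4) ^ 2 := by
  rw [mem_Dom_iff h hx]
  exact forall_congr' fun k => (nk_iff hx k).1

/-- On the wall of `k` the location is in the Voronoi cell of `k`. -/
theorem wall_Vor (h : GData Gam) {x : Fin 5 → ℝ} (hx : x ∈ Dom Gam) {k : Fin 3 → ℤ}
    (hk : - bf x (nk k) = x 4) : loc x ∈ Vor k ∧ 2 - 2 * qz (loc x - kz k) = 1 / (x 4) ^ 2 := by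
  have h1 := ((nk_iff hx.1 k).2).1 hk
  refine ⟨fun l => ?_, h1⟩
  have h2 := (mem_Dom_iff' h hx.1).1 hx l
  linarith

end Lib_MP_55d5ef_q
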