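import Pool.Agent.Lib_MP_55d5ef_q.QPar
import Pool.Agent.Lib_MP_55d5ef_q.QGK

open Matrix Lib_MP_55d5ef_geo Lib_MP_55d5ef

namespace Lib_MP_55d5ef_q

theorem Dom_four_eq {x : Fin 5 → ℝ} {g : GL (Fin 5) ℤ} (hx : x ∈ Dom Gam)
    (hg : g ∈ Gam) (hgx : act g x ∈ Dom Gam) : (act g x) 4 = x 4 := by
  apply le_antisymm
  · have h1 := hgx.2 _ (Gam.inv_mem hg)
    rwa [act_inv_act] at h1
  · exact hx.2 g hg

/-- `Dom` is stable under elements keeping the last coordinate. -/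
theorem Dom_of_four {x : Fin 5 → ℝ} {g : GL (Fin 5) ℤ} (h : GData Gam) (hx : x ∈ Dom Gam)
    (hg : g ∈ Gam) (h4 : (act g x) 4 = x 4) : act g x ∈ Dom Gam := by
  refine ⟨h.mem_HL hg hx.1, fun k hk => ?_⟩
  rw [h4, ← act_mul]
  exact hx.2 _ (Gam.mul_mem hk hg)

/-- Translations on the parameters. -/
theorem act_jm_trans {k : Fin 3 → ℤ} (y : P3 × NNReal) :
    act (TG (k 0) (k 1) (k 2)) (jm y) = jm (y.1 + kz k, y.2) := by
  have hxH : act (TG (k 0) (k 1) (k 2)) (jm y) ∈ HL :=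
    act_mem_HL (iso_TG _ _ _) (fwd_TG (k 0) (k 1) (k 2) p5 (by simp [bf, p5])
      (by simp [p5])) (jm_mem_HL y)
  rw [eq_pt hxH]
  have hl : lastc (y.1 + kz k, y.2) = lastc y := by
    unfold lastc rho
    rw [mz_add]
  have hb := lastc_pos y
  have h4 : act (TG (k 0) (k 1) (k 2)) (jm y) 4 = lastc y := by
    rw [act_TG]; simp [jm, pt]
  have hloc : loc (act (TG (k 0) (k 1) (k 2)) (jm y)) = y.1 + kz k := by
    unfold loc
    rw [h4, act_TG]
    have e : jm y = ![1 / (2 * lastc y) + lastc y * qz y.1, lastc y * y.1 0, lastc y * y.1 1,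
      lastc y * y.1 2, lastc y] := rfl
    rw [e]
    funext i
    fin_cases i
    · show (lastc y * y.1 0 + k 0 * lastc y) / lastc y = y.1 0 + k 0
      field_simp
    · show (lastc y * y.1 1 + k 1 * lastc y) / lastc y = y.1 1 + k 1
      field_simp
    · show (lastc y * y.1 2 + k 2 * lastc y) / lastc y = y.1 2 + k 2
      field_simp
  rw [hloc, h4]
  unfold jm
  rw [hl]

theorem JM_e5 : JM *ᵥ (e5 : Fin 5 → ℤ) = nb 0 0 0 := by
  rw [JM_mulVec]
  funext i
  fin_cases i <;> simp [e5, nb, qK]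

theorem SM_nb0 (A : ℕ) : SM A *ᵥ (nb 0 0 0 : Fin 5 → ℤ) = nb 0 0 0 := by
  unfold SM
  split_ifs <;>
  · funext i
    fin_cases i <;> simp [nb, qK, Matrix.mulVec, dotProduct, Fin.sum_univ_five]

/-- `gK k` maps the base cusp to the neighbour over the partner. -/
theorem gK_e5 (k : Fin 3 → ℤ) :
    (gK k).1 *ᵥ (e5 : Fin 5 → ℤ) = nb (repx (prt k)) 0 (repz (prt k)) := by
  unfold gK
  simp only [Units.val_mul, ← Matrix.mulVec_mulVec, TG_val]
  have e1 : (JG.1 : Matrix (Fin 5) (Fin 5) ℤ) = JM := rfl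
  have e2 : ((SG (rfl3 k)).1 : Matrix (Fin 5) (Fin 5) ℤ) = SM (rfl3 k) := rfl
  rw [e1, e2, TM_e5, JM_e5, SM_nb0, TM_nb]
  congr 1 <;> ring

/-- The side pairing on the parameters. -/
theorem act_jm_pair (h : GData Gam) {z : P3} {k : Fin 3 → ℤ} (hz : z ∈ Vor k) :
    act (gK k) (jm (z, 0)) = jm (phiK k z, 0) := by
  have h1 := act_gK (jm_mem_HL (z, 0)) (wall_jm hz)
  have h2 := Dom_of_four h (jm_mem h (z, 0)) (gK_mem k) h1.1
  obtain ⟨s, hs1, hs2⟩ := jm_surj h h2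
  rw [h1.2, jm_loc] at hs1
  -- the image is on the wall of the partner
  have h3 : - bf (jm (phiK k z, s)) (nk ![repx (prt k), 0, repz (prt k)]) =
      jm (phiK k z, s) 4 := by
    have e : nk ![repx (prt k), 0, repz (prt k)] = toR ((gK k).1 *ᵥ (e5 : Fin 5 → ℤ)) := by
      rw [nk_toR, gK_e5]
      rfl
    rw [e, hs1, h1.1, ← act_toR, bf_act _ (h.isom _ (gK_mem k)), e5_toR, bf_e5]
    ring
  have h4 := (jm_wall h3).1
  have h5 : s = 0 := h4
  rw [← hs1, h5]

/-- A step of the relation is realised by an element of the group. -/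
theorem step_act (h : GData Gam) {y y' : P3 × NNReal} (hs : step y y') :
    ∃ g ∈ Gam, act g (jm y) = jm y' := by
  cases hs with
  | trans z s k hk => exact ⟨_, TG_mem hk, act_jm_trans (z, s)⟩
  | pair z k hz =>
    exact ⟨gK k, gK_mem k, act_jm_pair h hz⟩

theorem eqvGen_act (h : GData Gam) {y y' : P3 × NNReal} (hs : Relation.EqvGen step y y') :
    ∃ g ∈ Gam, act g (jm y) = jm y' := by
  induction hs with
  | rel y y' hs => exact step_act h hs
  | refl y => exact ⟨1, Gam.one_mem, act_one _⟩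
  | symm y y' _ ih =>
    obtain ⟨g, hg, hgy⟩ := ih
    exact ⟨g⁻¹, Gam.inv_mem hg, by rw [← hgy, act_inv_act]⟩
  | trans y y' y'' _ _ ih1 ih2 =>
    obtain ⟨g, hg, hgy⟩ := ih1
    obtain ⟨k, hk, hky⟩ := ih2
    exact ⟨k * g, Gam.mul_mem hk hg, by rw [act_mul, hgy, hky]⟩

/-- **The orbit relation on the Ford domain is generated by the steps.** -/
theorem act_eqvGen (h : GData Gam) (n : ℕ) : ∀ (y y' : P3 × NNReal) (g : GL (Fin 5) ℤ), g ∈ Gam →
    act g (jm y) = jm y' → ((g⁻¹).1 *ᵥ (e5 : Fin 5 → ℤ)) 4 ≤ n → Relation.EqvGen step y y' := by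
  induction n with
  | zero =>
    intro y y' g hg hgy hn
    have hgi := Gam.inv_mem hg
    obtain ⟨h3, h4⟩ := light_four_nonneg h hgi
    have h5 := h4 (by rw [Nat.cast_zero] at hn; omega)
    -- `g` fixes the cusp
    have h6 : g.1 *ᵥ (e5 : Fin 5 → ℤ) = e5 := by
      have := mulVec_inv_cancel g e5
      rwa [h5] at this
    obtain ⟨a, b, c, hl, hgT⟩ := (h.stab g).1 ⟨hg, h6⟩
    have h7 : g = TG ((![a, b, c] : Fin 3 → ℤ) 0) ((![a, b, c] : Fin 3 → ℤ) 1)
        ((![a, b, c] : Fin 3 → ℤ) 2) := by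
      apply Units.ext
      rw [hgT]
      rfl
    rw [h7, act_jm_trans] at hgy
    rw [← jm_injective hgy]
    exact Relation.EqvGen.rel _ _ (step.trans y.1 y.2 ![a, b, c] hl)
  | succ n ih =>
    intro y y' g hg hgy hn
    have hgi := Gam.inv_mem hg
    obtain ⟨h3, h4⟩ := light_four_nonneg h hgi
    by_cases hle : ((g⁻¹).1 *ᵥ (e5 : Fin 5 → ℤ)) 4 ≤ n
    · exact ih y y' g hg hgy hle
    · set v := (g⁻¹).1 *ᵥ (e5 : Fin 5 → ℤ) with hv
      have hv4 : v 4 = n + 1 := by rw [Nat.cast_succ] at hn; omega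
      have hxD := jm_mem h y
      have hgD : act g (jm y) ∈ Dom Gam := by rw [hgy]; exact jm_mem h y'
      have hfour := Dom_four_eq hxD hg hgD
      rw [act_four (h.isom g hg), ← hv] at hfour
      have hvv : bf v v = 0 := by rw [hv, h.isom _ hgi, bf_e5_e5]
      obtain ⟨k, hk1, hk2⟩ := (key hxD.1 ((mem_Dom_iff h hxD.1).1 hxD) hvv (by omega)).2 hfour
      -- the step over the wall of `k`
      obtain ⟨hy2, hyV⟩ := jm_wall hk1
      have hyz : y = (y.1, 0) := by rw [← hy2]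
      have hstep : step y (phiK k y.1, 0) := by
        rw [hyz]; exact step.pair y.1 k hyV
      obtain ⟨h8, h9⟩ := act_gK (jm_mem_HL y) hk1
      have hjm : act (gK k) (jm y) = jm (phiK k y.1, 0) := by
        have := act_jm_pair h hyV
        rwa [← hyz] at this
      have h10 : act (g * (gK k)⁻¹) (jm (phiK k y.1, 0)) = jm y' := by
        rw [← hjm, act_mul, act_inv_act, hgy]
      refine Relation.EqvGen.trans _ _ _ (Relation.EqvGen.rel _ _ hstep)
        (ih _ _ _ (Gam.mul_mem hg (Gam.inv_mem (gK_mem k))) h10 ?_)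
      -- the new height
      have h11 : ((g * (gK k)⁻¹)⁻¹).1 *ᵥ (e5 : Fin 5 → ℤ) = (gK k).1 *ᵥ v := by
        rw [_root_.mul_inv_rev, inv_inv, Units.val_mul, ← Matrix.mulVec_mulVec, ← hv]
      rw [h11]
      have h12 : bf ((gK k).1 *ᵥ v) ((gK k).1 *ᵥ nb (k 0) (k 1) (k 2)) =
          bf v (nb (k 0) (k 1) (k 2)) := h.isom _ (gK_mem k) _ _
      rw [gK_nb, bf_e5] at h12
      omega

end Lib_MP_55d5ef_q
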