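import Pool.Agent.Lib_MP_55d5ef_q.QConv

open Matrix Lib_MP_55d5ef_geo Lib_MP_55d5ef

namespace Lib_MP_55d5ef_q

/-- The neighbour over `k`, as a real vector. -/
def nk (k : Fin 3 → ℤ) : Fin 5 → ℝ := nb (k 0 : ℝ) (k 1) (k 2)

/-- `-(x, nk k) = x₄ qz (loc x - k) + 1/(2 x₄)`. -/
theorem bf_nk {x : Fin 5 → ℝ} (hx : x ∈ HL) (k : Fin 3 → ℤ) :
    - bf x (nk k) = x 4 * qz (loc x - kz k) + 1 / (2 * x 4) := by
  rw [nk, bf_nb hx]
  simp [qz, loc, kz]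

theorem nk_toR (k : Fin 3 → ℤ) : nk k = toR (nb (k 0) (k 1) (k 2)) := by
  funext i
  fin_cases i <;> simp [toR, nk, nb, qK]

private theorem qkey_expand (w0 w1 w2 w3 : ℝ) (k0 k1 k2 k3 z v : Fin 3 → ℝ)
    (e1 : w0 + w1 + w2 + w3 = 1)
    (e2 : ∀ j, w0 * k0 j + w1 * k1 j + w2 * k2 j + w3 * k3 j = v j) :
    w0 * qz (z - k0) + w1 * qz (z - k1) + w2 * qz (z - k2) + w3 * qz (z - k3) =
      qz (z - v) + (w0 * qz (k0 - v) + w1 * qz (k1 - v) + w2 * qz (k2 - v) + w3 * qz (k3 - v)) := by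
  have a0 := e2 0
  have a1 := e2 1
  have a2 := e2 2
  simp only [qz, qK, Pi.sub_apply]
  linear_combination
    (((z 0 - v 0) ^ 2 + (z 1 - v 1) ^ 2 + 2 * (z 2 - v 2) ^ 2 - (z 0 - v 0) * (z 1 - v 1)
        - (z 0 - v 0) * (z 2 - v 2)) +
      (v 0 * (2 * (z 0 - v 0) - (z 1 - v 1) - (z 2 - v 2)) + v 1 * (2 * (z 1 - v 1) - (z 0 - v 0)) +
        v 2 * (4 * (z 2 - v 2) - (z 0 - v 0)))) * e1
    - (2 * (z 0 - v 0) - (z 1 - v 1) - (z 2 - v 2)) * a0 - (2 * (z 1 - v 1) - (z 0 - v 0)) * a1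
    - (4 * (z 2 - v 2) - (z 0 - v 0)) * a2

private theorem qkey_int {v : Fin 5 → ℤ} (hv : bf v v = 0) (hv4 : 1 ≤ v 4) (k : Fin 3 → ℤ) :
    ((- bf v (nb (k 0) (k 1) (k 2)) : ℤ) : ℝ) =
      (v 4 : ℝ) * qz (kz k - fun j => ((![v 1, v 2, v 3] : Fin 3 → ℤ) j : ℝ) / (v 4 : ℝ)) := by
  rw [bf_self] at hv
  have h1 : (qK (v 1) (v 2) (v 3) : ℤ) = v 0 * v 4 := by linarith
  have h2 : ((v 1 : ℝ) ^ 2 + (v 2 : ℝ) ^ 2 + 2 * (v 3 : ℝ) ^ 2 - v 1 * v 2 - v 1 * v 3) =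
      (v 0 : ℝ) * v 4 := by
    have h3 := congrArg (Int.cast : ℤ → ℝ) h1
    simp only [qK] at h3
    push_cast at h3
    exact h3
  have h4 : (v 4 : ℝ) ≠ 0 := by
    have : (1 : ℝ) ≤ v 4 := by exact_mod_cast hv4
    linarith
  simp only [bf, nb, qz, qK, kz, Pi.sub_apply]
  simp only [Matrix.cons_val]
  push_cast
  field_simp
  linear_combination (-1 : ℝ) * h2

/-- **The neighbours decide.**  Let `x ∈ HL` with `x₄ ≤ -(x, nk k)` for all `k`, and let `v` be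
an isotropic integral vector with `v₄ = n ≥ 1`.  Then `x₄ ≤ -(x,v)`; in the case of equality
there is `k` with `-(x, nk k) = x₄` and `-(v, nk k) < v₄`.

Proof.  `κ = (v₁,v₂,v₃)`, `qK κ = v₀ n` (`bf_self`), so `n ∣ qK κ`; take `w, k` from
`conv_rat n κ`.  Put `zv = κ/n`, `z = loc x`, `a = x₄ > 0`.
`-(x,v) = n (a qz(z - zv) + 1/(2a))` (`bf_light`), `-(x, nk k) = a qz(z - k) + 1/(2a)`
(`bf_nk`).  Because `Σ wᵢ = 1` and `Σ wᵢ kᵢ = zv`,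
`Σ wᵢ qz(z - kᵢ) = qz(z - zv) + Σ wᵢ qz(kᵢ - zv) ≤ qz(z - zv) + 1 - 1/n` (expand; `qz` is a
quadratic form).  Hence
`-(x,v) = n (a qz(z-zv) + 1/(2a)) ≥ n (Σ wᵢ (-(x, nk kᵢ)) - a (1 - 1/n)) ≥ n (a - a + a/n) = a`.
In the case of equality every `i` with `wᵢ > 0` has `-(x, nk kᵢ) = a`, and
`Σ wᵢ qz(kᵢ - zv) = 1 - 1/n < 1`, so some `i` with `wᵢ > 0` has `qz(kᵢ - zv) < 1` (otherwise
the sum would be `≥ 1`).  Finally `-(v, nk k) = n qz(k - zv)` (`bf`, `qK κ = v₀ n`), so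
`-(v, nk kᵢ) < n`. -/
theorem key {x : Fin 5 → ℝ} (hx : x ∈ HL) (hN : ∀ k, x 4 ≤ - bf x (nk k))
    {v : Fin 5 → ℤ} (hv : bf v v = 0) (hv4 : 1 ≤ v 4) :
    x 4 ≤ - bf x (toR v) ∧
    (- bf x (toR v) = x 4 → ∃ k : Fin 3 → ℤ, - bf x (nk k) = x 4 ∧
      - bf v (nb (k 0) (k 1) (k 2)) < v 4) := by
  have hNk := hN
  clear hN
  obtain ⟨w, k, h0, h1, h2, h3⟩ := conv_rat (v 4) hv4 ![v 1, v 2, v 3] (by
    have h := hv
    rw [bf_self] at h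
    refine ⟨v 0, ?_⟩
    simp only [Matrix.cons_val]
    linarith)
  set zv : Fin 3 → ℝ := fun j => ((![v 1, v 2, v 3] : Fin 3 → ℤ) j : ℝ) / (v 4 : ℝ) with hzv
  have hN : (1 : ℝ) ≤ (v 4 : ℝ) := by exact_mod_cast hv4
  have ha : 0 < x 4 := hx.2
  have hE := qkey_expand (w 0) (w 1) (w 2) (w 3) (kz (k 0)) (kz (k 1)) (kz (k 2)) (kz (k 3))
    (loc x) zv h1 (fun j => h2 j)
  have hL : - bf x (toR v) = (v 4 : ℝ) * (x 4 * qz (loc x - zv) + 1 / (2 * x 4)) := by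
    have hv' : bf (toR v) (toR v) = 0 := by rw [bf_toR, hv, Int.cast_zero]
    have h := bf_light hx hv' (by simp only [toR]; linarith)
    rw [h]
    simp [qz, loc, hzv, toR]
  obtain ⟨V, hV⟩ : ∃ V : ℝ, V = w 0 * qz (kz (k 0) - zv) + w 1 * qz (kz (k 1) - zv)
      + w 2 * qz (kz (k 2) - zv) + w 3 * qz (kz (k 3) - zv) := ⟨_, rfl⟩
  rw [← hV] at h3 hE
  obtain ⟨c, hc⟩ : ∃ c : Fin 4 → ℝ, ∀ i, c i = - bf x (nk (k i)) := ⟨_, fun _ => rfl⟩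
  have hc' : ∀ i, c i = x 4 * qz (loc x - kz (k i)) + 1 / (2 * x 4) := fun i => by
    rw [hc, bf_nk hx]
  have hca : ∀ i, x 4 ≤ c i := fun i => by rw [hc]; exact hNk (k i)
  have hS : w 0 * c 0 + w 1 * c 1 + w 2 * c 2 + w 3 * c 3 =
      x 4 * (qz (loc x - zv) + V) + 1 / (2 * x 4) := by
    rw [hc' 0, hc' 1, hc' 2, hc' 3, ← hE]
    linear_combination (1 / (2 * x 4)) * h1
  have hw0 := h0 0
  have hw1 := h0 1
  have hw2 := h0 2
  have hw3 := h0 3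
  have m0 : 0 ≤ w 0 * (c 0 - x 4) := mul_nonneg hw0 (by linarith [hca 0])
  have m1 : 0 ≤ w 1 * (c 1 - x 4) := mul_nonneg hw1 (by linarith [hca 1])
  have m2 : 0 ≤ w 2 * (c 2 - x 4) := mul_nonneg hw2 (by linarith [hca 2])
  have m3 : 0 ≤ w 3 * (c 3 - x 4) := mul_nonneg hw3 (by linarith [hca 3])
  have hT : w 0 * (c 0 - x 4) + w 1 * (c 1 - x 4) + w 2 * (c 2 - x 4) + w 3 * (c 3 - x 4) =
      x 4 * (qz (loc x - zv) + V) + 1 / (2 * x 4) - x 4 := by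
    linear_combination hS - x 4 * h1
  -- the value as a sum
  have hNV : (v 4 : ℝ) * (1 - 1 / (v 4 : ℝ)) = v 4 - 1 := by
    field_simp
  have hval : - bf x (toR v) - x 4 = (v 4 : ℝ) * (w 0 * (c 0 - x 4) + w 1 * (c 1 - x 4) +
      w 2 * (c 2 - x 4) + w 3 * (c 3 - x 4)) +
      (v 4 : ℝ) * x 4 * ((1 - 1 / (v 4 : ℝ)) - V) := by
    rw [hL, hT]
    linear_combination (-(x 4)) * hNV
  have p1 : 0 ≤ (v 4 : ℝ) * (w 0 * (c 0 - x 4) + w 1 * (c 1 - x 4) +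
      w 2 * (c 2 - x 4) + w 3 * (c 3 - x 4)) := by positivity
  have p2 : 0 ≤ (v 4 : ℝ) * x 4 * ((1 - 1 / (v 4 : ℝ)) - V) :=
    mul_nonneg (by positivity) (by linarith)
  refine ⟨by linarith, fun heq => ?_⟩
  have q1 : (v 4 : ℝ) * (w 0 * (c 0 - x 4) + w 1 * (c 1 - x 4) +
      w 2 * (c 2 - x 4) + w 3 * (c 3 - x 4)) = 0 := by linarith
  have q2 : w 0 * (c 0 - x 4) + w 1 * (c 1 - x 4) + w 2 * (c 2 - x 4) + w 3 * (c 3 - x 4) = 0 := by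
    rcases mul_eq_zero.1 q1 with h | h
    · linarith
    · exact h
  have hz : ∀ i, w i * (c i - x 4) = 0 := by
    intro i
    fin_cases i
    · show w 0 * (c 0 - x 4) = 0
      linarith
    · show w 1 * (c 1 - x 4) = 0
      linarith
    · show w 2 * (c 2 - x 4) = 0
      linarith
    · show w 3 * (c 3 - x 4) = 0
      linarith
  have hex : ∃ i, 0 < w i ∧ qz (kz (k i) - zv) < 1 := by
    by_contra hne
    push Not at hne
    have hge : ∀ i, w i ≤ w i * qz (kz (k i) - zv) := by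
      intro i
      rcases (h0 i).eq_or_lt with h | h
      · rw [← h, zero_mul]
      · nlinarith [hne i h]
    have g0 := hge 0
    have g1 := hge 1
    have g2 := hge 2
    have g3 := hge 3
    have hpos : 0 < 1 / (v 4 : ℝ) := by positivity
    linarith
  obtain ⟨i, hi, hq⟩ := hex
  refine ⟨k i, ?_, ?_⟩
  · rw [← hc]
    rcases mul_eq_zero.1 (hz i) with h | h
    · linarith
    · linarith
  · have h5 := qkey_int hv hv4 (k i)
    have h6 : ((- bf v (nb (k i 0) (k i 1) (k i 2)) : ℤ) : ℝ) < (v 4 : ℝ) := by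
      rw [h5]
      have h7 : (v 4 : ℝ) * qz (kz (k i) - zv) < (v 4 : ℝ) * 1 :=
        mul_lt_mul_of_pos_left hq (by linarith)
      rw [mul_one] at h7
      exact h7
    exact_mod_cast h6

end Lib_MP_55d5ef_q
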