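import Pool.Agent.Lib_MP_55d5ef_q.QDefs

open Matrix Lib_MP_55d5ef_geo Lib_MP_55d5ef

namespace Lib_MP_55d5ef_q

private theorem kuhn_core (z : P3) (n : Fin 3 → ℤ) (f : Fin 3 → ℝ) (hz : ∀ j, z j = n j + f j)
    (w : Fin 4 → ℝ) (v : Fin 4 → Fin 3 → ℤ) (R : ℝ) (hw : ∀ i, 0 ≤ w i)
    (hs : w 0 + w 1 + w 2 + w 3 = 1)
    (hv : ∀ j, w 0 * v 0 j + w 1 * v 1 j + w 2 * v 2 j + w 3 * v 3 j = f j)
    (hq : 2 * (w 0 * qz (kz (v 0) - f) + w 1 * qz (kz (v 1) - f) + w 2 * qz (kz (v 2) - f)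
      + w 3 * qz (kz (v 3) - f)) = R) :
    ∃ (w : Fin 4 → ℝ) (k : Fin 4 → Fin 3 → ℤ),
    (∀ i, 0 ≤ w i) ∧ w 0 + w 1 + w 2 + w 3 = 1 ∧
    (∀ j, w 0 * k 0 j + w 1 * k 1 j + w 2 * k 2 j + w 3 * k 3 j = z j) ∧
    2 * (w 0 * qz (kz (k 0) - z) + w 1 * qz (kz (k 1) - z) + w 2 * qz (kz (k 2) - z)
      + w 3 * qz (kz (k 3) - z)) = R := by
  refine ⟨w, fun i j => n j + v i j, hw, hs, fun j => ?_, ?_⟩
  · have h1 := hv j
    rw [hz j]
    push_cast
    linear_combination h1 + (n j : ℝ) * hs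
  · have key : ∀ i, kz (fun j => n j + v i j) - z = kz (v i) - f := by
      intro i
      funext j
      simp only [kz, Pi.sub_apply, hz j]
      push_cast
      ring
    rw [key 0, key 1, key 2, key 3]
    exact hq

/-- **Kuhn simplex.**  Every point `z` of `ℝ³` is a convex combination of four lattice points
`k₀,…,k₃` (the vertices of its Kuhn simplex) and the weighted sum of the half norms is given
by the fractional parts `f = fract z` (`d ↦ d (1 - d)` on the four edges of the graph of `K`).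

Proof.  `fᵢ = Int.fract (z i) ∈ [0,1)`, base point `⌊z⌋`.  If `f₀ ≥ f₁ ≥ f₂`, the weights are
`1 - f₀, f₀ - f₁, f₁ - f₂, f₂` and the points `⌊z⌋, ⌊z⌋+e₀, ⌊z⌋+e₀+e₁, ⌊z⌋+e₀+e₁+e₂`;
similarly for the other five orders (replace the order of the basis vectors).  The identities
are polynomial in `f₀,f₁,f₂`: use `2 qK x y z = (x-y)² + (x-z)² + y² + 3 z²` (`qK_eq`). -/
theorem kuhn (z : P3) : ∃ (w : Fin 4 → ℝ) (k : Fin 4 → Fin 3 → ℤ),
    (∀ i, 0 ≤ w i) ∧ w 0 + w 1 + w 2 + w 3 = 1 ∧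
    (∀ j, w 0 * k 0 j + w 1 * k 1 j + w 2 * k 2 j + w 3 * k 3 j = z j) ∧
    2 * (w 0 * qz (kz (k 0) - z) + w 1 * qz (kz (k 1) - z) + w 2 * qz (kz (k 2) - z)
      + w 3 * qz (kz (k 3) - z)) =
      |Int.fract (z 0) - Int.fract (z 1)| * (1 - |Int.fract (z 0) - Int.fract (z 1)|)
      + |Int.fract (z 0) - Int.fract (z 2)| * (1 - |Int.fract (z 0) - Int.fract (z 2)|)
      + Int.fract (z 1) * (1 - Int.fract (z 1))
      + 3 * (Int.fract (z 2) * (1 - Int.fract (z 2))) := by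
  have hz : ∀ j, z j = (⌊z j⌋ : ℤ) + Int.fract (z j) := fun j => (Int.floor_add_fract (z j)).symm
  have h00 := Int.fract_nonneg (z 0)
  have h10 := Int.fract_nonneg (z 1)
  have h20 := Int.fract_nonneg (z 2)
  have h01 := (Int.fract_lt_one (z 0)).le
  have h11 := (Int.fract_lt_one (z 1)).le
  have h21 := (Int.fract_lt_one (z 2)).le
  set f : Fin 3 → ℝ := fun j => Int.fract (z j) with hf
  have e0 : Int.fract (z 0) = f 0 := rfl
  have e1 : Int.fract (z 1) = f 1 := rfl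
  have e2 : Int.fract (z 2) = f 2 := rfl
  rw [e0] at h00 h01
  rw [e1] at h10 h11
  rw [e2] at h20 h21
  rw [e0, e1, e2]
  clear_value f
  have hz' : ∀ j, z j = ((fun j => ⌊z j⌋) j : ℤ) + f j := by
    intro j
    have := hz j
    rw [hf]
    exact this
  clear hf hz e0 e1 e2
  rcases le_total (f 1) (f 0) with a | a <;> rcases le_total (f 2) (f 1) with b | b <;>
    rcases le_total (f 2) (f 0) with c | c
  · refine kuhn_core z _ f hz' ![1 - f 0, f 0 - f 1, f 1 - f 2, f 2]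
      ![![0, 0, 0], ![1, 0, 0], ![1, 1, 0], ![1, 1, 1]] _ ?_ ?_ ?_ ?_
    · intro i; fin_cases i <;> simp <;> linarith
    · simp
    · intro j; fin_cases j <;> simp
    · rw [abs_of_nonneg (by linarith), abs_of_nonneg (by linarith)]
      simp [qz, kz, qK]
      ring
  · refine kuhn_core z _ f hz' ![1 - f 0, f 0 - f 1, f 1 - f 2, f 2]
      ![![0, 0, 0], ![1, 0, 0], ![1, 1, 0], ![1, 1, 1]] _ ?_ ?_ ?_ ?_
    · intro i; fin_cases i <;> simp <;> linarith
    · simp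
    · intro j; fin_cases j <;> simp
    · rw [abs_of_nonneg (by linarith), abs_of_nonneg (by linarith)]
      simp [qz, kz, qK]
      ring
  · refine kuhn_core z _ f hz' ![1 - f 0, f 0 - f 2, f 2 - f 1, f 1]
      ![![0, 0, 0], ![1, 0, 0], ![1, 0, 1], ![1, 1, 1]] _ ?_ ?_ ?_ ?_
    · intro i; fin_cases i <;> simp <;> linarith
    · simp
    · intro j; fin_cases j <;> simp
    · rw [abs_of_nonneg (by linarith), abs_of_nonneg (by linarith)]
      simp [qz, kz, qK]
      ring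
  · refine kuhn_core z _ f hz' ![1 - f 2, f 2 - f 0, f 0 - f 1, f 1]
      ![![0, 0, 0], ![0, 0, 1], ![1, 0, 1], ![1, 1, 1]] _ ?_ ?_ ?_ ?_
    · intro i; fin_cases i <;> simp <;> linarith
    · simp
    · intro j; fin_cases j <;> simp
    · rw [abs_of_nonneg (by linarith), abs_of_nonpos (by linarith)]
      simp [qz, kz, qK]
      ring
  · refine kuhn_core z _ f hz' ![1 - f 1, f 1 - f 0, f 0 - f 2, f 2]
      ![![0, 0, 0], ![0, 1, 0], ![1, 1, 0], ![1, 1, 1]] _ ?_ ?_ ?_ ?_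
    · intro i; fin_cases i <;> simp <;> linarith
    · simp
    · intro j; fin_cases j <;> simp
    · rw [abs_of_nonpos (by linarith), abs_of_nonneg (by linarith)]
      simp [qz, kz, qK]
      ring
  · refine kuhn_core z _ f hz' ![1 - f 1, f 1 - f 2, f 2 - f 0, f 0]
      ![![0, 0, 0], ![0, 1, 0], ![0, 1, 1], ![1, 1, 1]] _ ?_ ?_ ?_ ?_
    · intro i; fin_cases i <;> simp <;> linarith
    · simp
    · intro j; fin_cases j <;> simp
    · rw [abs_of_nonpos (by linarith), abs_of_nonpos (by linarith)]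
      simp [qz, kz, qK]
      ring
  · refine kuhn_core z _ f hz' ![1 - f 2, f 2 - f 1, f 1 - f 0, f 0]
      ![![0, 0, 0], ![0, 0, 1], ![0, 1, 1], ![1, 1, 1]] _ ?_ ?_ ?_ ?_
    · intro i; fin_cases i <;> simp <;> linarith
    · simp
    · intro j; fin_cases j <;> simp
    · rw [abs_of_nonpos (by linarith), abs_of_nonpos (by linarith)]
      simp [qz, kz, qK]
      ring
  · refine kuhn_core z _ f hz' ![1 - f 2, f 2 - f 1, f 1 - f 0, f 0]
      ![![0, 0, 0], ![0, 0, 1], ![0, 1, 1], ![1, 1, 1]] _ ?_ ?_ ?_ ?_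
    · intro i; fin_cases i <;> simp <;> linarith
    · simp
    · intro j; fin_cases j <;> simp
    · rw [abs_of_nonpos (by linarith), abs_of_nonpos (by linarith)]
      simp [qz, kz, qK]
      ring

end Lib_MP_55d5ef_q
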