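import Pool.Agent.Lib_MP_55d5ef_q.QDefs

open Matrix Lib_MP_55d5ef_geo Lib_MP_55d5ef

namespace Lib_MP_55d5ef_q

/-- Half of the squared distance to the lattice. -/
noncomputable def mz (z : P3) : ℝ := ⨅ k : Fin 3 → ℤ, qz (z - kz k)

/-- Only finitely many lattice points are near the points of a bounded set.

Proof.  `coord_le_qK`: `(z i - k i)² ≤ 2 qz (z - kz k) ≤ 2 c` and `|z i| ≤ R`, so
`|k i| ≤ R + 2 c + 1`. -/
theorem finite_near (R c : ℝ) : {k : Fin 3 → ℤ | ∃ z : P3, (∀ i, |z i| ≤ R) ∧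
    qz (z - kz k) ≤ c}.Finite := by
  obtain ⟨N, hN⟩ := exists_nat_ge (R + (1 + 2 * |c|))
  refine (Set.finite_Icc (fun _ : Fin 3 => -(N : ℤ)) (fun _ : Fin 3 => (N : ℤ))).subset ?_
  rintro k ⟨z, hz, hk⟩
  have h1 : ∀ i, (z i - k i) ^ 2 ≤ 2 * |c| := by
    intro i
    have h2 := coord_le_qK ((z - kz k) 0) ((z - kz k) 1) ((z - kz k) 2)
    have h3 : qK ((z - kz k) 0) ((z - kz k) 1) ((z - kz k) 2) ≤ |c| := hk.trans (le_abs_self c)
    have h4 : (z - kz k) i = z i - k i := rfl
    rw [← h4]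
    fin_cases i
    · exact h2.1.trans (by linarith)
    · exact h2.2.1.trans (by linarith)
    · exact h2.2.2.trans (by linarith)
  have h5 : ∀ i, |(k i : ℝ)| ≤ N := by
    intro i
    have h6 : |z i - k i| ≤ 1 + 2 * |c| := by
      have h7 := h1 i
      rw [← sq_abs] at h7
      have h8 := abs_nonneg (z i - k i)
      have h9 := abs_nonneg c
      by_contra h10
      push Not at h10
      nlinarith
    have h7 : |(k i : ℝ)| ≤ |z i| + |z i - k i| := by
      have h8 : (k i : ℝ) = z i - (z i - k i) := by ring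
      calc |(k i : ℝ)| = |z i - (z i - k i)| := by rw [← h8]
        _ ≤ |z i| + |z i - k i| := abs_sub _ _
    have h8 := hz i
    linarith
  rw [Set.mem_Icc]
  constructor
  · intro i
    have h6 := (abs_le.1 (h5 i)).1
    have h7 : (-(N : ℤ) : ℝ) ≤ (k i : ℝ) := by exact_mod_cast h6
    exact_mod_cast h7
  · intro i
    have h6 := (abs_le.1 (h5 i)).2
    exact_mod_cast h6

private theorem QMin_qz_nonneg (z : P3) : 0 ≤ qz z := qK_nonneg _ _ _

private theorem QMin_bdd (z : P3) : BddBelow (Set.range fun k : Fin 3 → ℤ => qz (z - kz k)) :=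
  ⟨0, by rintro _ ⟨k, rfl⟩; exact QMin_qz_nonneg _⟩

private theorem QMin_kz_zero (z : P3) : z - kz 0 = z := by
  funext i
  simp [kz]

/-- The infimum is attained, at a `k` whose Voronoi cell contains `z`.

Proof.  The set of `k` with `qz (z - kz k) ≤ qz z` (`k = 0`) is finite (`finite_near`) and
nonempty: take the minimum over it; it is the minimum over all `k`.  `ciInf` with the lower
bound `0` (`qK_nonneg`). -/
theorem mz_attained (z : P3) : ∃ k : Fin 3 → ℤ, mz z = qz (z - kz k) ∧ z ∈ Vor k := by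
  have hfin : {k : Fin 3 → ℤ | qz (z - kz k) ≤ qz z}.Finite := by
    refine (finite_near (∑ i, |z i|) (qz z)).subset fun k hk => ⟨z, fun i => ?_, hk⟩
    exact Finset.single_le_sum (f := fun i => |z i|) (fun j _ => abs_nonneg _) (Finset.mem_univ i)
  obtain ⟨k, hk, hk'⟩ := Set.exists_min_image _ (fun k => qz (z - kz k)) hfin
    ⟨0, by rw [Set.mem_ofPred_eq, QMin_kz_zero]⟩
  have hmin : ∀ l : Fin 3 → ℤ, qz (z - kz k) ≤ qz (z - kz l) := by
    intro l
    by_cases hl : qz (z - kz l) ≤ qz z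
    · exact hk' l hl
    · exact (show qz (z - kz k) ≤ qz z from hk).trans (not_le.1 hl).le
  refine ⟨k, le_antisymm (ciInf_le (QMin_bdd z) k) (le_ciInf hmin), hmin⟩

theorem mz_le (z : P3) (k : Fin 3 → ℤ) : mz z ≤ qz (z - kz k) := by
  exact ciInf_le (QMin_bdd z) k

theorem mz_nonneg (z : P3) : 0 ≤ mz z := by
  exact Real.iInf_nonneg fun k => QMin_qz_nonneg _

/-- Covering radius: `cov_radius` of `GCov`. -/
theorem mz_le_cov (z : P3) : mz z ≤ 3 / 4 := by
  obtain ⟨a, b, c, h⟩ := cov_radius (z 0) (z 1) (z 2)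
  refine (mz_le z ![a, b, c]).trans (le_trans (le_of_eq ?_) h)
  simp [qz, kz]

/-- `z` is in the Voronoi cell of `k` iff the minimum is attained at `k`. -/
theorem mem_Vor_iff (z : P3) (k : Fin 3 → ℤ) : z ∈ Vor k ↔ qz (z - kz k) = mz z := by
  constructor
  · intro h
    exact le_antisymm (le_ciInf h) (mz_le z k)
  · intro h l
    rw [h]
    exact mz_le z l

/-- Translation invariance. -/
theorem mz_add (z : P3) (k : Fin 3 → ℤ) : mz (z + kz k) = mz z := by
  unfold mz
  rw [← (Equiv.addRight k).iInf_comp (g := fun l => qz (z + kz k - kz l))]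
  congr 1
  funext l
  congr 1
  funext i
  simp [kz]

/-- Continuity.

Proof.  On the ball of radius `R` (in the sup norm) around `z₀` only the finitely many `k` of
`finite_near (‖z₀‖ + 1) (3/4)` matter (the minimum is `≤ 3/4` by `mz_le_cov`), so near `z₀`
the function `mz` is the minimum of finitely many continuous functions
(`Finset.inf'`, `Continuous.finset_inf'_apply`); continuity is local
(`continuous_iff_continuousAt`, `ContinuousAt.congr`, `Filter.EventuallyEq`). -/
theorem mz_continuous : Continuous mz := by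
  rw [continuous_iff_continuousAt]
  intro z₀
  have hfin := finite_near (‖z₀‖ + 1) (3 / 4)
  have hmem : ∀ z : P3, ‖z‖ ≤ ‖z₀‖ + 1 → ∃ k ∈ hfin.toFinset, mz z = qz (z - kz k) := by
    intro z hz
    obtain ⟨k, hk, -⟩ := mz_attained z
    refine ⟨k, ?_, hk⟩
    rw [Set.Finite.mem_toFinset]
    refine ⟨z, fun i => ?_, ?_⟩
    · exact ((Real.norm_eq_abs (z i)).symm.le.trans (norm_le_pi_norm z i)).trans hz
    · rw [← hk]
      exact mz_le_cov z
  have hne : hfin.toFinset.Nonempty := by
    obtain ⟨k, hk, -⟩ := hmem z₀ (by linarith)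
    exact ⟨k, hk⟩
  have hcont : ∀ k : Fin 3 → ℤ, Continuous fun z : P3 => qz (z - kz k) := by
    intro k
    unfold qz qK
    simp only [Pi.sub_apply]
    fun_prop
  have h1 : ContinuousAt (fun z : P3 => hfin.toFinset.inf' hne fun k => qz (z - kz k)) z₀ :=
    (Continuous.finset_inf'_apply hne fun k _ => hcont k).continuousAt
  refine h1.congr ?_
  filter_upwards [Metric.ball_mem_nhds z₀ one_pos] with z hz
  have hz' : ‖z‖ ≤ ‖z₀‖ + 1 := by
    have h2 : ‖z - z₀‖ < 1 := by
      rw [← dist_eq_norm]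
      exact hz
    have h3 := norm_sub_norm_le z z₀
    linarith
  obtain ⟨k, hk, hk'⟩ := hmem z hz'
  refine le_antisymm ?_ ?_
  · rw [hk']
    exact Finset.inf'_le (fun k => qz (z - kz k)) hk
  · exact Finset.le_inf' hne _ fun l _ => mz_le z l

end Lib_MP_55d5ef_q
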