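import Pool.Agent.Lib_MP_55d5ef_q.QDom
import Pool.Agent.Lib_MP_55d5ef_q.QMin

open Matrix Lib_MP_55d5ef_geo Lib_MP_55d5ef

namespace Lib_MP_55d5ef_q

/-- The floor height squared over `z`: `ρ(z)² = 2 - 2 mz z ∈ [1/2, 2]`. -/
noncomputable def rho (z : P3) : ℝ := Real.sqrt (2 - 2 * mz z)

theorem rho_sq (z : P3) : (rho z) ^ 2 = 2 - 2 * mz z := by
  unfold rho
  exact Real.sq_sqrt (by have := mz_le_cov z; linarith)

theorem rho_pos (z : P3) : 0 < rho z := by
  unfold rho
  exact Real.sqrt_pos.mpr (by have := mz_le_cov z; linarith)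

theorem rho_continuous : Continuous rho := by
  unfold rho
  exact (continuous_const.sub (continuous_const.mul mz_continuous)).sqrt

/-- The last coordinate of the point over `z` at height `t = ρ(z) (1 + s)`. -/
noncomputable def lastc (y : P3 × NNReal) : ℝ := 1 / (rho y.1 * (1 + (y.2 : ℝ)))

theorem lastc_pos (y : P3 × NNReal) : 0 < lastc y := by
  unfold lastc
  have := rho_pos y.1
  have h2 : (0:ℝ) ≤ y.2 := y.2.2
  positivity

/-- The point of the hyperboloid with location `z` and last coordinate `b`. -/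
noncomputable def pt (z : P3) (b : ℝ) : Fin 5 → ℝ :=
  ![1 / (2 * b) + b * qz z, b * z 0, b * z 1, b * z 2, b]

theorem pt_mem (z : P3) {b : ℝ} (hb : 0 < b) : pt z b ∈ HL := by
  refine ⟨?_, by simpa [pt] using hb⟩
  simp only [bf, pt, qz, qK]
  simp only [Matrix.cons_val]
  field_simp
  ring

theorem pt_loc (z : P3) {b : ℝ} (hb : 0 < b) : loc (pt z b) = z := by
  funext i
  fin_cases i
  · show b * z 0 / b = z 0
    field_simp
  · show b * z 1 / b = z 1
    field_simp
  · show b * z 2 / b = z 2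
    field_simp

/-- A point of the hyperboloid is determined by location and last coordinate. -/
theorem eq_pt {x : Fin 5 → ℝ} (hx : x ∈ HL) : x = pt (loc x) (x 4) := by
  obtain ⟨h1, h4⟩ := hx
  funext i
  fin_cases i
  · show x 0 = 1 / (2 * x 4) + x 4 * qz (loc x)
    have h2 : qz (loc x) = qK (x 1) (x 2) (x 3) / (x 4) ^ 2 := by
      unfold qz loc qK
      simp only [Matrix.cons_val]
      field_simp
    rw [bf_self] at h1
    rw [h2]
    field_simp
    linarith
  · show x 1 = x 4 * (x 1 / x 4)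
    field_simp
  · show x 2 = x 4 * (x 2 / x 4)
    field_simp
  · show x 3 = x 4 * (x 3 / x 4)
    field_simp
  · rfl

/-- The parametrization of the Ford domain by `ℝ³ × [0,∞)`. -/
noncomputable def jm (y : P3 × NNReal) : Fin 5 → ℝ := pt y.1 (lastc y)

theorem jm_mem_HL (y : P3 × NNReal) : jm y ∈ HL := pt_mem _ (lastc_pos y)

theorem jm_four (y : P3 × NNReal) : jm y 4 = lastc y := by simp [jm, pt]

theorem jm_loc (y : P3 × NNReal) : loc (jm y) = y.1 := pt_loc _ (lastc_pos y)

theorem inv_lastc_sq (y : P3 × NNReal) :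
    1 / (lastc y) ^ 2 = (2 - 2 * mz y.1) * (1 + (y.2 : ℝ)) ^ 2 := by
  have := rho_pos y.1
  have h2 : (0:ℝ) ≤ y.2 := y.2.2
  rw [← rho_sq]
  unfold lastc
  field_simp

theorem jm_mem (h : GData Gam) (y : P3 × NNReal) : jm y ∈ Dom Gam := by
  rw [mem_Dom_iff' h (jm_mem_HL y)]
  intro k
  rw [jm_four, jm_loc, inv_lastc_sq]
  have h1 := mz_le y.1 k
  have h2 := mz_le_cov y.1
  have h3 : (0:ℝ) ≤ y.2 := y.2.2
  nlinarith [mul_nonneg h3 h3, mul_nonneg h3 (show (0:ℝ) ≤ 2 - 2 * mz y.1 by linarith)]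

/-- The floor: `s = 0` exactly on the wall of the nearest lattice points. -/
theorem jm_wall {y : P3 × NNReal} {k : Fin 3 → ℤ} (hk : - bf (jm y) (nk k) = jm y 4) :
    y.2 = 0 ∧ y.1 ∈ Vor k := by
  have h1 := ((nk_iff (jm_mem_HL y) k).2).1 hk
  rw [jm_four, jm_loc, inv_lastc_sq] at h1
  have h2 := mz_le y.1 k
  have h3 := mz_le_cov y.1
  have h4 : (0:ℝ) ≤ y.2 := y.2.2
  have h5 : (y.2 : ℝ) = 0 := by
    by_contra hne
    have h6 : 0 < (y.2 : ℝ) := lt_of_le_of_ne h4 (Ne.symm hne)
    nlinarith [mul_pos h6 h6]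
  refine ⟨by exact_mod_cast h5, ?_⟩
  rw [mem_Vor_iff]
  rw [h5] at h1
  linarith

theorem wall_jm {z : P3} {k : Fin 3 → ℤ} (hz : z ∈ Vor k) :
    - bf (jm (z, 0)) (nk k) = jm (z, 0) 4 := by
  rw [(nk_iff (jm_mem_HL _) k).2, jm_four, jm_loc, inv_lastc_sq]
  rw [mem_Vor_iff] at hz
  simp only [NNReal.coe_zero]
  rw [hz]; ring

/-- The inverse of the parametrization. -/
theorem jm_surj (h : GData Gam) {x : Fin 5 → ℝ} (hx : x ∈ Dom Gam) :
    ∃ s : NNReal, jm (loc x, s) = x ∧ (s : ℝ) = 1 / (x 4 * rho (loc x)) - 1 := by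
  have hxH := hx.1
  have h4 := hxH.2
  have hr := rho_pos (loc x)
  obtain ⟨k, hk, _⟩ := mz_attained (loc x)
  have h1 := (mem_Dom_iff' h hxH).1 hx k
  rw [← hk, ← rho_sq] at h1
  have h2 : rho (loc x) * x 4 ≤ 1 := by
    rw [le_div_iff₀ (by positivity)] at h1
    have h3 : (rho (loc x) * x 4) ^ 2 ≤ 1 := by nlinarith
    nlinarith [mul_pos hr h4]
  have h3 : 0 ≤ 1 / (x 4 * rho (loc x)) - 1 := by
    rw [sub_nonneg, le_div_iff₀ (by positivity)]
    linarith
  refine ⟨⟨_, h3⟩, ?_, rfl⟩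
  have h5 : lastc (loc x, (⟨1 / (x 4 * rho (loc x)) - 1, h3⟩ : NNReal)) = x 4 := by
    unfold lastc
    show 1 / (rho (loc x) * (1 + (1 / (x 4 * rho (loc x)) - 1))) = x 4
    have : 1 + (1 / (x 4 * rho (loc x)) - 1) = 1 / (x 4 * rho (loc x)) := by ring
    rw [this]
    field_simp
  unfold jm
  rw [h5]
  exact (eq_pt hxH).symm

theorem jm_continuous : Continuous jm := by
  have h1 : Continuous lastc := by
    unfold lastc
    refine continuous_const.div ?_ ?_
    · exact (rho_continuous.comp continuous_fst).mul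
        (continuous_const.add (NNReal.continuous_coe.comp continuous_snd))
    · intro y
      have := rho_pos y.1
      have h2 : (0:ℝ) ≤ y.2 := y.2.2
      positivity
  have h2 : ∀ i : Fin 3, Continuous fun y : P3 × NNReal => y.1 i :=
    fun i => (continuous_apply i).comp continuous_fst
  have hq : Continuous fun y : P3 × NNReal => qz y.1 := by
    have e0 := h2 0
    have e1 := h2 1
    have e2 := h2 2
    unfold qz qK
    fun_prop
  refine continuous_pi fun i => ?_
  fin_cases i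
  · show Continuous fun y => 1 / (2 * lastc y) + lastc y * qz y.1
    refine Continuous.add ?_ (h1.mul hq)
    refine continuous_const.div (continuous_const.mul h1) ?_
    intro y
    have := lastc_pos y
    positivity
  · exact h1.mul (h2 0)
  · exact h1.mul (h2 1)
  · exact h1.mul (h2 2)
  · exact h1

theorem jm_injective : Function.Injective jm := by
  intro y y' hyy
  have h1 : y.1 = y'.1 := by rw [← jm_loc, ← jm_loc, hyy]
  have h2 : lastc y = lastc y' := by rw [← jm_four, ← jm_four, hyy]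
  have h3 : (1 + (y.2 : ℝ)) = 1 + (y'.2 : ℝ) := by
    unfold lastc at h2
    rw [h1] at h2
    have hr := rho_pos y'.1
    have a : (0:ℝ) ≤ y.2 := y.2.2
    have b : (0:ℝ) ≤ y'.2 := y'.2.2
    have a' : 0 < rho y'.1 * (1 + (y.2 : ℝ)) := by positivity
    have b' : 0 < rho y'.1 * (1 + (y'.2 : ℝ)) := by positivity
    rw [div_eq_div_iff a'.ne' b'.ne'] at h2
    nlinarith
  refine Prod.ext h1 ?_
  have h4 : (y.2 : ℝ) = (y'.2 : ℝ) := by linarith
  exact_mod_cast h4

end Lib_MP_55d5ef_q
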