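import Pool.Agent.Lib_MP_55d5ef_q.QEq

open Matrix Lib_MP_55d5ef_geo Lib_MP_55d5ef Topology

namespace Lib_MP_55d5ef_q

/-- The orbit relation of `Gam` on the hyperboloid. -/
def orb : Setoid HL where
  r x y := ∃ g ∈ Gam, act g x.1 = y.1
  iseqv := by
    refine ⟨fun x => ⟨1, Gam.one_mem, act_one _⟩, ?_, ?_⟩
    · rintro x y ⟨g, hg, hxy⟩
      exact ⟨g⁻¹, Gam.inv_mem hg, by rw [← hxy, act_inv_act]⟩
    · rintro x y z ⟨g, hg, hxy⟩ ⟨k, hk, hyz⟩
      exact ⟨k * g, Gam.mul_mem hk hg, by rw [act_mul, hxy, hyz]⟩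

/-- The parametrization with values in the hyperboloid. -/
noncomputable def jH (y : P3 × NNReal) : HL := ⟨jm y, jm_mem_HL y⟩

/-- The inverse, defined on the whole hyperboloid. -/
noncomputable def par (x : HL) : P3 × NNReal :=
  (loc x.1, Real.toNNReal (1 / (x.1 4 * rho (loc x.1)) - 1))

theorem loc_continuous : Continuous fun x : HL => loc x.1 := by
  have h4 : Continuous fun x : HL => x.1 4 := (continuous_apply 4).comp continuous_subtype_val
  have hne : ∀ x : HL, x.1 4 ≠ 0 := fun x => x.2.2.ne'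
  refine continuous_pi fun i => ?_
  fin_cases i
  · exact ((continuous_apply 1).comp continuous_subtype_val).div h4 hne
  · exact ((continuous_apply 2).comp continuous_subtype_val).div h4 hne
  · exact ((continuous_apply 3).comp continuous_subtype_val).div h4 hne

theorem par_continuous : Continuous par := by
  have h4 : Continuous fun x : HL => x.1 4 := (continuous_apply 4).comp continuous_subtype_val
  refine loc_continuous.prodMk (continuous_real_toNNReal.comp ?_)
  refine Continuous.sub ?_ continuous_const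
  refine continuous_const.div (h4.mul (rho_continuous.comp loc_continuous)) ?_
  intro x
  have := x.2.2
  have := rho_pos (loc x.1)
  positivity

theorem jH_continuous : Continuous jH := jm_continuous.subtype_mk _

theorem par_jH (y : P3 × NNReal) : par (jH y) = y := by
  refine Prod.ext (jm_loc y) ?_
  show Real.toNNReal (1 / (jm y 4 * rho (loc (jm y))) - 1) = y.2
  rw [jm_four, jm_loc]
  have hr := rho_pos y.1
  have h2 : (0:ℝ) ≤ y.2 := y.2.2
  have : 1 / (lastc y * rho y.1) - 1 = (y.2 : ℝ) := by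
    unfold lastc
    field_simp
    ring
  rw [this, Real.toNNReal_coe]

theorem jH_closedEmbedding : IsClosedEmbedding jH :=
  Function.LeftInverse.isClosedEmbedding par_jH par_continuous jH_continuous

/-- The action of an element of `Gam` on the hyperboloid. -/
noncomputable def actH (h : GData Gam) (g : Gam) (x : HL) : HL :=
  ⟨act g.1 x.1, h.mem_HL g.2 x.2⟩

theorem actH_continuous (h : GData Gam) (g : Gam) : Continuous (actH h g) := by
  refine Continuous.subtype_mk ?_ _
  unfold act
  fun_prop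

/-- The projection from the parameters. -/
noncomputable def prj (y : P3 × NNReal) : Quotient orb := Quotient.mk orb (jH y)

theorem prj_eq_iff (h : GData Gam) (y y' : P3 × NNReal) :
    prj y = prj y' ↔ Relation.EqvGen step y y' := by
  unfold prj
  rw [Quotient.eq]
  constructor
  · rintro ⟨g, hg, hgy⟩
    obtain ⟨h3, _⟩ := light_four_nonneg h (Gam.inv_mem hg)
    exact act_eqvGen h (((g⁻¹).1 *ᵥ (e5 : Fin 5 → ℤ)) 4).toNat y y' g hg hgy
      (by rw [Int.toNat_of_nonneg h3])
  · exact eqvGen_act h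

theorem exists_param (h : GData Gam) (x : HL) :
    ∃ g : Gam, ∃ y : P3 × NNReal, actH h g x = jH y := by
  obtain ⟨g, hg, hmin⟩ := nearest h x.2
  have hD : act g x.1 ∈ Dom Gam := by
    refine ⟨h.mem_HL hg x.2, fun k hk => ?_⟩
    rw [← act_mul]
    exact hmin _ (Gam.mul_mem hk hg)
  obtain ⟨s, hs, _⟩ := jm_surj h hD
  exact ⟨⟨g, hg⟩, (_, s), Subtype.ext hs.symm⟩

theorem prj_surjective (h : GData Gam) : Function.Surjective prj := by
  intro q
  induction q using Quotient.inductionOn with
  | h x =>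
    obtain ⟨g, y, hy⟩ := exists_param h x
    refine ⟨y, ?_⟩
    unfold prj
    rw [← hy]
    exact Quotient.sound ⟨g.1⁻¹, Gam.inv_mem g.2, by
      show act g.1⁻¹ (act g.1 x.1) = x.1
      rw [act_inv_act]⟩

/-- The cusps in the orbit of the base cusp. -/
abbrev Cus : Type := {v : Fin 5 → ℤ // ∃ g : Gam, (g.1⁻¹).1 *ᵥ (e5 : Fin 5 → ℤ) = v}

/-- A chosen group element for each cusp. -/
noncomputable def gv (v : Cus) : Gam := v.2.choose

theorem gv_spec (v : Cus) : ((gv v).1⁻¹).1 *ᵥ (e5 : Fin 5 → ℤ) = v.1 := v.2.choose_spec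

/-- **Quotient map.** -/
theorem prj_quotientMap (h : GData Gam) : IsQuotientMap prj := by
  have hcont : Continuous prj := continuous_quotient_mk'.comp jH_continuous
  rw [isQuotientMap_iff_isClosed]
  refine ⟨prj_surjective h, fun W => ⟨fun hW => hW.preimage hcont, fun hA => ?_⟩⟩
  -- the preimage in the hyperboloid is a locally finite union of closed sets
  have hquot : IsQuotientMap (Quotient.mk orb) := isQuotientMap_quotient_mk'
  rw [← hquot.isClosed_preimage]
  set A := prj ⁻¹' W with hAdef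
  have hcl : IsClosed (jH '' A) := jH_closedEmbedding.isClosedMap A hA
  set E : Cus → Set HL := fun v => (actH h (gv v)) ⁻¹' (jH '' A) with hE
  have hEcl : ∀ v, IsClosed (E v) := fun v => hcl.preimage (actH_continuous h (gv v))
  have hunion : (Quotient.mk orb) ⁻¹' W = ⋃ v, E v := by
    ext x
    simp only [Set.mem_preimage, Set.mem_iUnion]
    constructor
    · intro hx
      obtain ⟨g, y, hy⟩ := exists_param h x
      refine ⟨⟨_, g, rfl⟩, ?_⟩
      set v : Cus := ⟨(g.1⁻¹).1 *ᵥ (e5 : Fin 5 → ℤ), g, rfl⟩ with hv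
      -- `gv v = λ g`
      have h1 : ((gv v).1 * g.1⁻¹).1 *ᵥ (e5 : Fin 5 → ℤ) = e5 := by
        have h2 := gv_spec v
        rw [Units.val_mul, ← Matrix.mulVec_mulVec]
        have h3 : (g.1⁻¹).1 *ᵥ (e5 : Fin 5 → ℤ) = ((gv v).1⁻¹).1 *ᵥ (e5 : Fin 5 → ℤ) := h2.symm
        rw [h3]
        exact mulVec_inv_cancel _ _
      have hgm : (gv v).1 * g.1⁻¹ ∈ Gam := Gam.mul_mem (gv v).2 (Gam.inv_mem g.2)
      obtain ⟨a, b, c, hl, hT⟩ := (h.stab _).1 ⟨hgm, h1⟩
      have h4 : (gv v).1 * g.1⁻¹ = TG ((![a, b, c] : Fin 3 → ℤ) 0) ((![a, b, c] : Fin 3 → ℤ) 1)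
          ((![a, b, c] : Fin 3 → ℤ) 2) := by
        apply Units.ext
        rw [hT]
        rfl
      have h5 : (actH h (gv v) x).1 = jm (y.1 + kz ![a, b, c], y.2) := by
        show act (gv v).1 x.1 = _
        rw [← act_jm_trans, ← h4]
        have h6 : act g.1 x.1 = jm y := congrArg Subtype.val hy
        rw [← h6, ← act_mul, inv_mul_cancel_right]
      refine ⟨(y.1 + kz ![a, b, c], y.2), ?_, Subtype.ext h5.symm⟩
      show prj _ ∈ W
      have h7 : prj (y.1 + kz ![a, b, c], y.2) = Quotient.mk orb x := by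
        unfold prj
        refine Quotient.sound ⟨(gv v).1⁻¹, Gam.inv_mem (gv v).2, ?_⟩
        show act (gv v).1⁻¹ (jm _) = x.1
        rw [← h5]
        exact act_inv_act _ _
      rw [h7]
      exact hx
    · rintro ⟨v, y, hy, hyx⟩
      have h7 : prj y = Quotient.mk orb x := by
        unfold prj
        rw [hyx]
        refine Quotient.sound ⟨(gv v).1⁻¹, Gam.inv_mem (gv v).2, ?_⟩
        exact act_inv_act _ _
      rw [← h7]
      exact hy
  have hlf : LocallyFinite E := by
    intro x₀
    -- a neighbourhood where the last coordinate and `x 0` are bounded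
    set c : ℝ := x₀.1 0 + x₀.1 4 + 1 with hc
    refine ⟨{x : HL | x.1 0 + x.1 4 < c}, ?_, ?_⟩
    · refine IsOpen.mem_nhds ?_ (by show x₀.1 0 + x₀.1 4 < c; linarith)
      exact isOpen_lt (((continuous_apply 0).comp continuous_subtype_val).add
        ((continuous_apply 4).comp continuous_subtype_val)) continuous_const
    · have hfin := finite_box (2 * c ^ 2 * (2 * 2))
      refine Set.Finite.of_finite_image (f := fun v : Cus => v.1) (hfin.subset ?_)
        Subtype.val_injective.injOn
      rintro _ ⟨v, ⟨x, hxE, hxU⟩, rfl⟩ i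
      obtain ⟨y, hyA, hyx⟩ := hxE
      have h1 := coord_bound x.2 (toR v.1) i
      have hvv : bf v.1 v.1 = 0 := by
        rw [← gv_spec v, h.isom _ (Gam.inv_mem (gv v).2), bf_e5_e5]
      rw [bf_toR, hvv] at h1
      have h2 : - bf x.1 (toR v.1) = jm y 4 := by
        have h3 := act_four (h.isom _ (gv v).2) x.1
        rw [gv_spec v] at h3
        rw [← h3]
        have h4 : act (gv v).1 x.1 = jm y := (congrArg Subtype.val hyx).symm
        rw [h4]
      have h5 : (bf x.1 (toR v.1)) ^ 2 ≤ 2 := by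
        have h6 : bf x.1 (toR v.1) = - jm y 4 := by linarith
        rw [h6, neg_sq]
        exact near_sq h (jm_mem_HL y) (jm_mem h y).2
      have h7 : 0 < x.1 0 := HL_zero_pos x.2
      have h8 := x.2.2
      have h9 : (x.1 0 + x.1 4) ^ 2 ≤ c ^ 2 := by
        have : x.1 0 + x.1 4 < c := hxU
        nlinarith
      refine le_trans h1 ?_
      push_cast
      have h10 : 0 ≤ (bf x.1 (toR v.1)) ^ 2 := sq_nonneg _
      have h11 : 0 ≤ (x.1 0 + x.1 4) ^ 2 := sq_nonneg _
      nlinarith [mul_le_mul h9 h5 h10 (le_trans h11 h9)]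
  rw [hunion]
  exact hlf.isClosed_iUnion hEcl

/-- **The quotient of hyperbolic space by the group is `(ℝ³ × [0,∞))/~`.** -/
theorem quotient_homeo (h : GData Gam) :
    Nonempty (Quotient orb ≃ₜ Quotient stepSetoid) := by
  have hker : Setoid.ker prj = stepSetoid := by
    ext y y'
    rw [Setoid.ker_def]
    exact prj_eq_iff h y y'
  have hcont : Continuous prj := continuous_quotient_mk'.comp jH_continuous
  have e := IsQuotientMap.homeomorph (f := ⟨prj, hcont⟩) (prj_quotientMap h)
  have hker' : Setoid.ker (⟨prj, hcont⟩ : C(P3 × NNReal, Quotient orb)) = stepSetoid := hker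
  rw [hker'] at e
  exact ⟨e.symm⟩

end Lib_MP_55d5ef_q
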